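import Pool.Agent.CyclicIllum.Core

set_option autoImplicit false

open Pool.Agent.CyclicIllum

/-- The illumination number of a cyclic polytope is the least number of blocks of consecutive
indices such that the first and the last index of each block are linked. -/
theorem Pool.Agent.Results.MP_830f5a_co.BlockFormula.result {d n : ℕ} (hd : 2 ≤ d)
    (hn : d + 1 ≤ n) (t : Fin n → ℝ) (ht : StrictMono t) :
    IsLeast {m : ℕ | IlluminableBy (cyclicPolytope d t) m} (blockNumber d t) :=
  isLeast_blockNumber hd hn ht
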