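import Pool.Agent.CyclicIllum.Range

set_option autoImplicit false

open Pool.Agent.CyclicIllum

/-- The illumination numbers of the cyclic polytopes with `n` vertices in dimension `d` are exactly
the integers from `d + 1` to `min n (2 d - 1)`. -/
theorem Pool.Agent.Results.MP_830f5a_co.ValueRange.result {d n : ℕ} (hd : 2 ≤ d)
    (hn : d + 1 ≤ n) (m : ℕ) :
    (∃ t : Fin n → ℝ, StrictMono t ∧ IsLeast {k | IlluminableBy (cyclicPolytope d t) k} m) ↔
      d + 1 ≤ m ∧ m ≤ min n (2 * d - 1) :=
  value_range hd hn m
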